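import Pool.Agent.W719.AX.Ker

/-! AX-KXC: the kernel at complex points. -/

set_option autoImplicit false

namespace Pool.Agent.W701.AX

open Finset Filter Topology Metric
open Pool.Agent.W711.HT Pool.Agent.W719.AX
open scoped Real

theorem UX.comp {E E' : Type} {Y : ℕ → E → ℂ} {A : ℕ → E → ℂ} {S : Set E} (h : UX Y A S)
    (g : E' → E) {S' : Set E'} (hg : ∀ p ∈ S', g p ∈ S) :
    UX (fun N p => Y N (g p)) (fun k p => A k (g p)) S' := by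
  intro K
  obtain ⟨C, hC⟩ := h K
  refine ⟨C, hC.mono fun N hN p hp => hN (g p) (hg p hp)⟩

theorem UX.congr {E : Type} {Y Y' : ℕ → E → ℂ} {A : ℕ → E → ℂ} {S : Set E} (h : UX Y A S)
    (he : ∀ᶠ N : ℕ in atTop, ∀ p ∈ S, Y N p = Y' N p) : UX Y' A S := by
  intro K
  obtain ⟨C, hC⟩ := h K
  refine ⟨C, ?_⟩
  filter_upwards [hC, he] with N h1 h2 p hp
  rw [← h2 p hp]
  exact h1 p hp

theorem Rc_open (ρ τ : ℝ) : IsOpen (Rc ρ τ) := by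
  have h1 : Continuous fun z : ℂ => |z.re| := Complex.continuous_re.abs
  have h2 : Continuous fun z : ℂ => |z.im| := Complex.continuous_im.abs
  exact (isOpen_lt h1 continuous_const).inter (isOpen_lt h2 continuous_const)

theorem kxc : S_KXR → S_KLOG → S_EXT → S_UXLOG → S_UXEXP → S_UXAN → S_KXC := by
  intro hR hLog hE hUL hUE hUA ρ τ κ c s dl hKD
  obtain ⟨ρ₁, hρ₁, hρ₁ρ, a, c₁, hc₁, hux, hnz⟩ := hR ρ τ κ c s dl hKD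
  obtain ⟨C₀, L, hL⟩ := hLog ρ τ κ c s dl hKD
  have hτ := hKD.hτ.1
  obtain ⟨ρ', τ', hρ', hρ'1, hτ', hτ'1, hExt⟩ := hE ρ₁ τ hρ₁ hτ
  have hRl : ∀ z ∈ Rl ρ₁, z ∈ Rc ρ τ := by
    rintro z ⟨h1, h2⟩
    refine ⟨h1.trans_le hρ₁ρ, ?_⟩
    rw [h2, abs_zero]
    exact hτ
  have hRc1 : ∀ z ∈ Rc ρ₁ τ, z ∈ Rc ρ τ := fun z hz => ⟨hz.1.trans_le hρ₁ρ, hz.2⟩
  have hRc' : ∀ z ∈ Rc ρ' τ', z ∈ Rc ρ τ := fun z hz =>
    ⟨hz.1.trans_le (hρ'1.trans hρ₁ρ), hz.2.trans_le hτ'1⟩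
  -- the logarithm at real points
  obtain ⟨B, hB⟩ := hUL (ℂ × ℂ) (kx s) (fun N p => L N p.1 p.2) a (Rl ρ₁ ×ˢ Rl ρ₁) c₁ hc₁ hux hnz
    (hL.mono fun N hN p hp => by
      obtain ⟨_, h2, h3⟩ := hN.2.2 p.1 (hRl _ hp.1) p.2 (hRl _ hp.2)
      exact ⟨h3 hp.1.2 hp.2.2, h2⟩)
  -- first variable
  obtain ⟨A1, hA1⟩ := hExt ℂ (Rl ρ₁) (fun N z q => L N z q) B C₀
    (hL.mono fun N hN q hq =>
      ⟨(hN.1 q (hRl _ hq)).mono hRc1, fun z hz => (hN.2.2 z (hRc1 _ hz) q (hRl _ hq)).1⟩) hB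
  -- second variable
  have hA1' := UX.comp hA1 (fun x : ℂ × ℂ => (x.2, x.1)) (S' := Rl ρ₁ ×ˢ Rc ρ' τ')
    (fun p hp => ⟨hp.2, hp.1⟩)
  obtain ⟨A2, hA2⟩ := hExt ℂ (Rc ρ' τ') (fun N z q => L N q z) (fun k x => A1 k (x.2, x.1)) C₀
    (hL.mono fun N hN q hq =>
      ⟨(hN.2.1 q (hRc' _ hq)).mono hRc1, fun z hz => (hN.2.2 q (hRc' _ hq) z (hRc1 _ hz)).1⟩)
    hA1'
  have hA3 := UX.comp hA2 (fun x : ℂ × ℂ => (x.2, x.1)) (S' := Rc ρ' τ' ×ˢ Rc ρ' τ')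
    (fun p hp => ⟨hp.2, hp.1⟩)
  obtain ⟨D, hD1, hD2⟩ := hUE _ _ _ _ hA3
  have hK : UX (kx s) D (Rc ρ' τ' ×ˢ Rc ρ' τ') := by
    refine UX.congr hD1 (hL.mono fun N hN p hp => ?_)
    exact (hN.2.2 p.1 (hRc' _ hp.1) p.2 (hRc' _ hp.2)).2.1
  refine ⟨ρ', τ', hρ'1.trans hρ₁ρ, hτ'1, D, hρ', hτ', hK, ?_, ?_, ?_⟩
  · intro k ψ' hψ'
    refine hUA (fun N ψ => kx s N (ψ, ψ')) (fun k ψ => D k (ψ, ψ')) (Rc ρ' τ') (Rc_open _ _) ?_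
      (UX.comp hK (fun ψ => (ψ, ψ')) fun ψ hψ => ⟨hψ, hψ'⟩) k
    refine hL.mono fun N hN => ?_
    have h1 : DifferentiableOn ℂ (fun ψ => Complex.exp (L N ψ ψ')) (Rc ρ' τ') :=
      ((hN.1 ψ' (hRc' _ hψ')).mono hRc').cexp
    exact h1.congr fun ψ hψ => ((hN.2.2 ψ (hRc' _ hψ) ψ' (hRc' _ hψ')).2.1).symm
  · intro k ψ hψ
    refine hUA (fun N ψ' => kx s N (ψ, ψ')) (fun k ψ' => D k (ψ, ψ')) (Rc ρ' τ') (Rc_open _ _) ?_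
      (UX.comp hK (fun ψ' => (ψ, ψ')) fun ψ' hψ' => ⟨hψ, hψ'⟩) k
    refine hL.mono fun N hN => ?_
    have h1 : DifferentiableOn ℂ (fun ψ' => Complex.exp (L N ψ ψ')) (Rc ρ' τ') :=
      ((hN.2.1 ψ (hRc' _ hψ)).mono hRc').cexp
    exact h1.congr fun ψ' hψ' => ((hN.2.2 ψ (hRc' _ hψ) ψ' (hRc' _ hψ')).2.1).symm
  · intro x _
    rw [hD2]
    exact Complex.exp_ne_zero _

end Pool.Agent.W701.AX
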